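import Pool.Agent.X88.EW.Fin

/-! One smooth compactly supported weight gives the rate `C E|X|^5 / N^(3/2)` in the central limit
theorem with Edgeworth correction, for all laws with four matching moment conditions at once. -/

set_option autoImplicit false

open MeasureTheory ProbabilityTheory Set


namespace Pool.Agent.Results.MP_8414c7_pr.UniversalWeight

/-- Weighting functions: smooth, supported in `[0,1]`, nonnegative, with integral one. -/
structure IsWeight (w : ℝ → ℝ) : Prop where
  smooth : ContDiff ℝ ((⊤ : ℕ∞) : WithTop ℕ∞) w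
  supp : ∀ x, x ∉ Icc (0:ℝ) 1 → w x = 0
  nonneg : ∀ x, 0 ≤ w x
  total : ∫ x in (0:ℝ)..1, w x = 1

/-- The sum `A_N` of the weights `w (n / N)`, `0 ≤ n < N`. -/
noncomputable def A (w : ℝ → ℝ) (N : ℕ) : ℝ := ∑ n ∈ Finset.range N, w ((n : ℝ) / N)

/-- The weighted normalised sum `S_N`; here `X k` is the `(k+1)`-st variable of the sequence, so that
the weight `w (n / N)` with `n = k + 1` goes with the `n`-th variable, `1 ≤ n ≤ N - 1`. -/
noncomputable def S {Ω : Type*} (w : ℝ → ℝ) (X : ℕ → Ω → ℝ) (N : ℕ) (ω : Ω) : ℝ :=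
  (Real.sqrt (A w N))⁻¹ * ∑ k ∈ Finset.range (N - 1), Real.sqrt (w (((k + 1 : ℕ) : ℝ) / N)) * X k ω

/-- The corrected normal distribution function; `m` is the fourth moment. -/
noncomputable def G (m : ℝ) (N : ℕ) (x : ℝ) : ℝ :=
  1 / Real.sqrt (2 * Real.pi) * (∫ t in Iic x, Real.exp (-t ^ 2 / 2)) -
    (m - 3) / (8 * Real.sqrt (2 * Real.pi) * N) * (x ^ 3 - 3 * x) * Real.exp (-x ^ 2 / 2)

/-- There are one weighting function `w` and one constant `C` such that for every sequence of
independent identically distributed random variables with mean `0`, second moment `1`, third moment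
`0` and finite fifth absolute moment the distribution function of the weighted sum differs from the
corrected normal one by at most `C E|X|^5 / N^(3/2)`, for all `N ≥ 2` with `A_N > 0`. -/
theorem result.{u} : ∃ w : ℝ → ℝ, IsWeight w ∧ ∃ C : ℝ, 0 < C ∧
    ∀ (Ω : Type u) [MeasurableSpace Ω] (P : Measure Ω) [IsProbabilityMeasure P] (X : ℕ → Ω → ℝ),
      (∀ k, Measurable (X k)) → iIndepFun X P → (∀ k, IdentDistrib (X k) (X 0) P P) →
      Integrable (fun ω => |X 0 ω| ^ 5) P → ∫ ω, X 0 ω ∂P = 0 → ∫ ω, X 0 ω ^ 2 ∂P = 1 →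
      ∫ ω, X 0 ω ^ 3 ∂P = 0 →
      ∀ N : ℕ, 2 ≤ N → 0 < A w N → ∀ x : ℝ,
        |P.real {ω | S w X N ω ≤ x} - G (∫ ω, X 0 ω ^ 4 ∂P) N x| ≤
          C * (∫ ω, |X 0 ω| ^ 5 ∂P) / (N : ℝ) ^ (3 / 2 : ℝ) := by
  obtain ⟨w, hw, K, hK, H⟩ := Pool.Agent.X88.EW.fin
  refine ⟨w, ⟨hw.smooth, hw.supp, hw.nonneg, hw.total⟩, K, hK, ?_⟩
  intro Ω _ P _ X hXm hind hid h5 h1 h2 h3 N hN hA x
  set ν : Measure ℝ := P.map (X 0) with hν
  have hp : IsProbabilityMeasure ν := Measure.isProbabilityMeasure_map (hXm 0).aemeasurable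
  have im : ∀ F : ℝ → ℝ, Continuous F → ∫ y, F y ∂ν = ∫ ω, F (X 0 ω) ∂P := fun F hF =>
    integral_map (hXm 0).aemeasurable hF.aestronglyMeasurable
  have hadm : Pool.Agent.X88.EW.Adm ν := by
    refine ⟨?_, ?_, ?_, ?_⟩
    · rw [hν, integrable_map_measure (by fun_prop : Continuous fun y : ℝ => |y| ^ 5).aestronglyMeasurable
        (hXm 0).aemeasurable]
      exact h5
    · rw [im (fun y => y) (by fun_prop)]; exact h1
    · rw [im (fun y => y ^ 2) (by fun_prop)]; exact h2
    · rw [im (fun y => y ^ 3) (by fun_prop)]; exact h3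
  have hSm : Measurable (S w X N) := by
    unfold S
    exact (Finset.measurable_sum _ fun k _ => (hXm k).const_mul _).const_mul _
  set μ : Measure ℝ := P.map (S w X N) with hμ
  have hpμ : IsProbabilityMeasure μ := Measure.isProbabilityMeasure_map hSm.aemeasurable
  -- the characteristic function of the sum
  have hcf : ∀ t, charFun μ t = ∏ i ∈ Finset.Ico 1 N, charFun ν (Pool.Agent.X88.EW.th w N i * t) := by
    intro t
    set Y : ℕ → Ω → ℝ := fun k ω => Pool.Agent.X88.EW.th w N (k + 1) * X k ω with hY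
    have e1 : S w X N = ∑ k ∈ Finset.range (N - 1), Y k := by
      ext ω
      rw [Finset.sum_apply]
      unfold S
      rw [Finset.mul_sum]
      refine Finset.sum_congr rfl fun k _ => ?_
      rw [hY]
      simp only
      unfold Pool.Agent.X88.EW.th
      have : Pool.Agent.X88.EW.AN w N = A w N := rfl
      rw [this]
      ring
    have hYi : iIndepFun Y P := by
      have := hind.comp (fun k y => Pool.Agent.X88.EW.th w N (k + 1) * y) (fun k => by fun_prop)
      exact this
    have e2 := iIndepFun.charFun_map_finsetSum_eq_prod (s := Finset.range (N - 1)) (X := Y) (P := P)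
      (fun k _ => ((hXm k).const_mul _).aemeasurable) (hYi.restrict _)
    rw [hμ, e1, e2, Finset.prod_apply, Finset.prod_Ico_eq_prod_range]
    refine Finset.prod_congr rfl fun k _ => ?_
    rw [hY]
    simp only
    rw [charFun_map_mul_comp (hXm k).aemeasurable, (hid k).map_eq, add_comm 1 k]
  have hmain := H ν hadm N hN hA μ hcf x
  rw [im (fun y => |y| ^ 5) (by fun_prop), im (fun y => y ^ 4) (by fun_prop)] at hmain
  have e3 : μ.real (Iic x) = P.real {ω | S w X N ω ≤ x} := by
    rw [hμ, measureReal_def, Measure.map_apply hSm measurableSet_Iic, measureReal_def]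
    rfl
  have e4 : ∀ m, Pool.Agent.X88.EW.GG m N x = G m N x := by
    intro m
    unfold Pool.Agent.X88.EW.GG G
    have e5 : ∀ t : ℝ, -t ^ 2 / 2 = -(t ^ 2 / 2) := fun t => by ring
    simp_rw [e5, one_div]
    ring
  rw [e3, e4] at hmain
  exact hmain

end Pool.Agent.Results.MP_8414c7_pr.UniversalWeight
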